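import Mathlib

set_option autoImplicit false

open Finset Nat

namespace Pool.Agent.Helper329.Sub

variable {α : Type} [Fintype α] [DecidableEq α]

/-- comparison of two zero-sum sets which are nested in opposite directions on the positive and
the negative part -/
lemma eq_of_nested (x : α → ℝ) (hx : ∀ i, x i ≠ 0) {A B : Finset α}
    (hA : ∑ i ∈ A, x i = 0) (hB : ∑ i ∈ B, x i = 0)
    (hpos : ∀ i, 0 < x i → i ∈ A → i ∈ B) (hneg : ∀ i, x i < 0 → i ∈ B → i ∈ A) : A = B := by
  have h0 : ∑ i, ((if i ∈ B then x i else 0) - (if i ∈ A then x i else 0)) = 0 := by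
    rw [Finset.sum_sub_distrib, Finset.sum_ite_mem, Finset.sum_ite_mem, Finset.univ_inter,
      Finset.univ_inter, hA, hB, sub_zero]
  have hnn : ∀ i ∈ (Finset.univ : Finset α),
      0 ≤ (if i ∈ B then x i else 0) - (if i ∈ A then x i else 0) := by
    intro i _
    rcases lt_or_gt_of_ne (hx i) with h | h
    · by_cases hiB : i ∈ B
      · simp [hiB, hneg i h hiB]
      · by_cases hiA : i ∈ A
        · simp [hiB, hiA, h.le]
        · simp [hiB, hiA]
    · by_cases hiA : i ∈ A
      · simp [hiA, hpos i h hiA]
      · by_cases hiB : i ∈ B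
        · simp [hiB, hiA, h.le]
        · simp [hiB, hiA]
  have hz := (Finset.sum_eq_zero_iff_of_nonneg hnn).1 h0
  ext i
  have hi := hz i (Finset.mem_univ i)
  have hxi := hx i
  by_cases hiA : i ∈ A <;> by_cases hiB : i ∈ B <;> simp [hiA, hiB] at hi ⊢ <;> exact hxi hi

/-- the indices with positive value -/
abbrev Pos (x : α → ℝ) : Type := {i : α // 0 < x i}

/-- the indices with negative value -/
abbrev Neg (x : α → ℝ) : Type := {i : α // x i < 0}

noncomputable instance (x : α → ℝ) : Fintype (Pos x) := Fintype.ofFinite _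
noncomputable instance (x : α → ℝ) : Fintype (Neg x) := Fintype.ofFinite _

/-- the positive part of a set -/
noncomputable def AP (x : α → ℝ) (A : Finset α) : Finset (Pos x) :=
  A.subtype (fun i => 0 < x i)

/-- the negative part of a set -/
noncomputable def AN (x : α → ℝ) (A : Finset α) : Finset (Neg x) :=
  A.subtype (fun i => x i < 0)

omit [Fintype α] in
lemma mem_AP (x : α → ℝ) (A : Finset α) (i : α) (hi : 0 < x i) :
    (⟨i, hi⟩ : Pos x) ∈ AP x A ↔ i ∈ A := by
  simp [AP]

omit [Fintype α] in
lemma mem_AN (x : α → ℝ) (A : Finset α) (i : α) (hi : x i < 0) :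
    (⟨i, hi⟩ : Neg x) ∈ AN x A ↔ i ∈ A := by
  simp [AN]

omit [Fintype α] in
lemma card_AP_add_card_AN (x : α → ℝ) (hx : ∀ i, x i ≠ 0) (A : Finset α) :
    (AP x A).card + (AN x A).card = A.card := by
  simp only [AP, AN, Finset.card_subtype]
  rw [← Finset.card_filter_add_card_filter_not (s := A) (fun i => 0 < x i)]
  congr 2
  apply Finset.filter_congr
  intro i _
  constructor
  · intro h
    exact not_lt.2 h.le
  · intro h
    exact lt_of_le_of_ne (not_lt.1 h) (hx i)

lemma card_Pos_add_card_Neg (x : α → ℝ) (hx : ∀ i, x i ≠ 0) :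
    Fintype.card (Pos x) + Fintype.card (Neg x) = Fintype.card α := by
  have h := card_AP_add_card_AN x hx (Finset.univ : Finset α)
  have h1 : AP x Finset.univ = Finset.univ := by
    ext ⟨i, hi⟩; simp [mem_AP]
  have h2 : AN x Finset.univ = Finset.univ := by
    ext ⟨i, hi⟩; simp [mem_AN]
  rw [h1, h2] at h
  simpa [Finset.card_univ] using h

/-- The bound by maximal products of binomial coefficients. -/
theorem card_le_of_zero_sum (x : α → ℝ) (hx : ∀ i, x i ≠ 0) (k : ℕ) (hk : 1 ≤ k)
    (F : Finset (Finset α)) (hF : ∀ A ∈ F, A.card = k ∧ ∑ i ∈ A, x i = 0) (G : ℕ)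
    (hG : ∀ p q j w : ℕ, p + q = Fintype.card α → j + w = k → 1 ≤ j → j ≤ p → 1 ≤ w → w ≤ q →
      p.choose j * q.choose w ≤ G) : F.card ≤ G := by
  classical
  set p := Fintype.card (Pos x) with hp
  set q := Fintype.card (Neg x) with hq
  have hpq : p + q = Fintype.card α := card_Pos_add_card_Neg x hx
  have hcard := card_AP_add_card_AN x hx
  let T : Finset α → Finset (Numbering (Pos x) × Numbering (Neg x)) := fun A =>
    Numbering.prefixed (AP x A) ×ˢ Numbering.prefixed (AN x A)
  have hdisj : Set.PairwiseDisjoint (F : Set (Finset α)) T := by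
    have key : ∀ A ∈ F, ∀ B ∈ F, (AP x A).card ≤ (AP x B).card → ∀ fg, fg ∈ T A → fg ∈ T B → A = B := by
      intro A hA B hB hle fg h1 h2
      simp only [T, Finset.mem_product, Numbering.mem_prefixed] at h1 h2
      have hle2 : (AN x B).card ≤ (AN x A).card := by
        have e1 := hcard A
        have e2 := hcard B
        rw [(hF A hA).1] at e1
        rw [(hF B hB).1] at e2
        omega
      have s1 : AP x A ⊆ AP x B := h1.1.subset_of_card_le_card h2.1 hle
      have s2 : AN x B ⊆ AN x A := h2.2.subset_of_card_le_card h1.2 hle2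
      apply eq_of_nested x hx (hF A hA).2 (hF B hB).2
      · intro i hi hiA
        exact (mem_AP x B i hi).1 (s1 ((mem_AP x A i hi).2 hiA))
      · intro i hi hiB
        exact (mem_AN x A i hi).1 (s2 ((mem_AN x B i hi).2 hiB))
    intro A hA B hB hne
    rw [Function.onFun, Finset.disjoint_left]
    intro fg h1 h2
    apply hne
    rcases Nat.le_total (AP x A).card (AP x B).card with h | h
    · exact key A hA B hB h fg h1 h2
    · exact (key B hB A hA h fg h2 h1).symm
  have hsum : ∑ A ∈ F, (T A).card ≤ p ! * q ! := by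
    rw [← Finset.card_biUnion hdisj]
    refine (Finset.card_le_univ _).trans ?_
    rw [Fintype.card_prod, Fintype.card_numbering, Fintype.card_numbering]
  have hterm : ∀ A ∈ F, p ! * q ! ≤ G * (T A).card := by
    intro A hA
    have e1 := hcard A
    rw [(hF A hA).1] at e1
    have hjp : (AP x A).card ≤ p := Finset.card_le_univ _
    have hwq : (AN x A).card ≤ q := Finset.card_le_univ _
    have hne : A.Nonempty := by
      rw [← Finset.card_pos, (hF A hA).1]; omega
    have hj1 : 1 ≤ (AP x A).card := by
      by_contra hcon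
      have h0 : (AP x A).card = 0 := by omega
      rw [Finset.card_eq_zero] at h0
      have : ∑ i ∈ A, x i < 0 := by
        apply Finset.sum_neg _ hne
        intro i hi
        rcases lt_or_gt_of_ne (hx i) with h | h
        · exact h
        · exfalso
          have : (⟨i, h⟩ : Pos x) ∈ AP x A := (mem_AP x A i h).2 hi
          rw [h0] at this
          simp at this
      linarith [(hF A hA).2]
    have hw1 : 1 ≤ (AN x A).card := by
      by_contra hcon
      have h0 : (AN x A).card = 0 := by omega
      rw [Finset.card_eq_zero] at h0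
      have : 0 < ∑ i ∈ A, x i := by
        apply Finset.sum_pos _ hne
        intro i hi
        rcases lt_or_gt_of_ne (hx i) with h | h
        · exfalso
          have : (⟨i, h⟩ : Neg x) ∈ AN x A := (mem_AN x A i h).2 hi
          rw [h0] at this
          simp at this
        · exact h
      linarith [(hF A hA).2]
    have hGA := hG p q _ _ hpq e1 hj1 hjp hw1 hwq
    have hT : (T A).card = ((AP x A).card ! * (p - (AP x A).card)!) * ((AN x A).card ! * (q - (AN x A).card)!) := by
      simp only [T, Finset.card_product, Numbering.card_prefixed]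
      rfl
    rw [hT]
    have c1 := Nat.choose_mul_factorial_mul_factorial hjp
    have c2 := Nat.choose_mul_factorial_mul_factorial hwq
    calc p ! * q ! = (p.choose (AP x A).card * q.choose (AN x A).card) *
        (((AP x A).card ! * (p - (AP x A).card)!) * ((AN x A).card ! * (q - (AN x A).card)!)) := by
          rw [← c1, ← c2]; ring
      _ ≤ _ := Nat.mul_le_mul_right _ hGA
  have hfin : F.card * (p ! * q !) ≤ G * (p ! * q !) := by
    calc F.card * (p ! * q !) = ∑ A ∈ F, p ! * q ! := by rw [Finset.sum_const, smul_eq_mul]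
      _ ≤ ∑ A ∈ F, G * (T A).card := Finset.sum_le_sum hterm
      _ = G * ∑ A ∈ F, (T A).card := by rw [Finset.mul_sum]
      _ ≤ _ := Nat.mul_le_mul_left _ hsum
  exact Nat.le_of_mul_le_mul_right hfin (Nat.mul_pos (Nat.factorial_pos _) (Nat.factorial_pos _))

end Pool.Agent.Helper329.Sub
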