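import Mathlib

set_option autoImplicit false

namespace Pool.Agent.Helper329.Sub

/-- A vertex of the `n`-dimensional hypercube: a vector all of whose coordinates are `0` or `1`. -/
def IsVertex {n : ℕ} (v : Fin n → ℝ) : Prop := ∀ i, v i = 0 ∨ v i = 1

/-- The weight of a vertex: its number of coordinates equal to `1`. -/
noncomputable def weight {n : ℕ} (v : Fin n → ℝ) : ℕ := {i | v i = 1}.ncard

/-- `S` is unit-free: no unit vector `e_i` lies in the real linear span of `S`. -/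
def UnitFree {n : ℕ} (S : Set (Fin n → ℝ)) : Prop :=
  ∀ i : Fin n, (Pi.single i 1 : Fin n → ℝ) ∉ Submodule.span ℝ S

/-- The sizes of the unit-free sets all of whose elements are vertices of weight exactly `k`. -/
def sizes (n k : ℕ) : Set ℕ :=
  {c | ∃ S : Set (Fin n → ℝ), (∀ v ∈ S, IsVertex v ∧ weight v = k) ∧ UnitFree S ∧ S.ncard = c}

/-- `M(n,k)`: the largest size of a unit-free set of vertices of weight exactly `k`. -/
noncomputable def M (n k : ℕ) : ℕ := sSup (sizes n k)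

/-- The numbers `C(n₁,k₁) C(n₂,k₂)` with `n₁ + n₂ = n`, `k₁ + k₂ = k`, `1 ≤ k₁ ≤ n₁`,
`1 ≤ k₂ ≤ n₂`. -/
def productSizes (n k : ℕ) : Set ℕ :=
  {c | ∃ n₁ n₂ k₁ k₂ : ℕ, n₁ + n₂ = n ∧ k₁ + k₂ = k ∧ 1 ≤ k₁ ∧ k₁ ≤ n₁ ∧ 1 ≤ k₂ ∧ k₂ ≤ n₂ ∧
    c = n₁.choose k₁ * n₂.choose k₂}

end Pool.Agent.Helper329.Sub
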