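import Mathlib

set_option autoImplicit false

namespace Pool.Agent.Helper329.Sub

/-- The value of the maximum: `m * C(n - m, k - 1)` with `m = ⌊(n + 1) / k⌋`. -/
def F1 (k n : ℕ) : ℕ := ((n + 1) / k) * (n - (n + 1) / k).choose (k - 1)

/-- auxiliary quadratic form -/
noncomputable def hq (k n : ℕ) (a : ℝ) : ℝ := a * (a + 1) + (n - a) * (n - a + 1) / ((k : ℝ) - 1)

/-- auxiliary quadratic form at the optimum -/
noncomputable def H1 (k n : ℕ) : ℝ := hq k n (((n + 1) / k : ℕ) : ℝ)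

/-- facts on `m` -/
lemma m_facts {k n : ℕ} (hk : 2 ≤ k) (hn : k ≤ n) :
    1 ≤ (n + 1) / k ∧ k * ((n + 1) / k) ≤ n + 1 ∧ n + 1 < k * ((n + 1) / k + 1) ∧
      k - 1 ≤ n - (n + 1) / k ∧ (n + 1) / k ≤ n := by
  have h1 : 1 ≤ (n + 1) / k := by
    rw [Nat.one_le_div_iff (by omega)]; omega
  have h2 : k * ((n + 1) / k) ≤ n + 1 := Nat.mul_div_le _ _
  have h3 : n + 1 < k * ((n + 1) / k + 1) := Nat.lt_mul_div_succ _ (by omega)
  refine ⟨h1, h2, h3, ?_, ?_⟩
  · rcases Nat.eq_or_lt_of_le h1 with h | h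
    · rw [← h]; omega
    · set m := (n + 1) / k
      have : k * m ≥ 2 * m + (k - 2) * m := by
        have : k * m = 2 * m + (k - 2) * m := by
          rw [← Nat.add_mul]; congr 1; omega
        omega
      obtain ⟨k', rfl⟩ : ∃ k', k = k' + 2 := ⟨k - 2, by omega⟩
      have h5 : (k' + 2) * m = k' * m + 2 * m := by ring
      have h6 : k' * 2 ≤ k' * m := Nat.mul_le_mul_left _ h
      omega
  · set m := (n + 1) / k
    have : 2 * m ≤ k * m := Nat.mul_le_mul_right _ hk
    omega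

lemma H1_le_hq {k n : ℕ} (hk : 2 ≤ k) (hn : k ≤ n) (a : ℤ) : H1 k n ≤ hq k n a := by
  obtain ⟨h1, h2, h3, h4, h5⟩ := m_facts hk hn
  unfold H1
  set m := (n + 1) / k with hm
  have hK : (0 : ℝ) < (k : ℝ) - 1 := by
    have : (2 : ℝ) ≤ k := by exact_mod_cast hk
    linarith
  have e : hq k n a - hq k n m = ((a : ℝ) - m) * (k * (a + m) + k - 2 * (n + 1)) / ((k : ℝ) - 1) := by
    unfold hq
    field_simp
    ring
  have h2' : (k : ℝ) * m ≤ n + 1 := by exact_mod_cast h2
  have h3' : (n : ℝ) + 1 ≤ k * (m + 1) := by exact_mod_cast h3.le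
  have hk0 : (0 : ℝ) < k := by linarith
  have hnum : 0 ≤ ((a : ℝ) - m) * (k * (a + m) + k - 2 * (n + 1)) := by
    rcases lt_trichotomy a (m : ℤ) with h | h | h
    · have ha : (a : ℝ) + 1 ≤ m := by exact_mod_cast h
      have h6 : k * ((a : ℝ) + m) + k - 2 * (n + 1) ≤ 0 := by nlinarith
      nlinarith
    · rw [h]; simp
    · have ha : (m : ℝ) + 1 ≤ a := by exact_mod_cast h
      have h6 : 0 ≤ k * ((a : ℝ) + m) + k - 2 * (n + 1) := by nlinarith
      nlinarith
  have : 0 ≤ hq k n a - hq k n m := by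
    rw [e]; positivity
  linarith

/-- the quadratic inequality -/
lemma H1_le (j w u v : ℕ) (hj : 1 ≤ j) (hw : 1 ≤ w) (hu : j ≤ u) (hv : w ≤ v) :
    H1 (j + w) (u + v) ≤ (u : ℝ) * (u + 1) / j + (v : ℝ) * (v + 1) / w := by
  have hk : 2 ≤ j + w := by omega
  have hn : j + w ≤ u + v := by omega
  have hj0 : (0 : ℝ) < j := by exact_mod_cast hj
  have hw0 : (0 : ℝ) < w := by exact_mod_cast hw
  have hj1 : (1 : ℝ) ≤ j := by exact_mod_cast hj
  have hw1 : (1 : ℝ) ≤ w := by exact_mod_cast hw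
  have hK : (0 : ℝ) < (j : ℝ) + w - 1 := by linarith
  -- the difference
  have key : ∀ a : ℤ, ((u : ℝ) * (u + 1) / j + (v : ℝ) * (v + 1) / w) - hq (j + w) (u + v) a =
      (((u : ℝ) - a * j) * ((u : ℝ) - a * j + 1) * (w * (w - 1)) +
        ((v : ℝ) - a * w) * ((v : ℝ) - a * w + 1) * (j * (j - 1)) -
        2 * ((u : ℝ) - a * j) * ((v : ℝ) - a * w) * (j * w)) / (j * w * ((j : ℝ) + w - 1)) := by
    intro a
    unfold hq
    push_cast
    field_simp
    ring
  have hint : ∀ b : ℤ, (0 : ℝ) ≤ (b : ℝ) * (b + 1) := by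
    intro b
    have : (0 : ℤ) ≤ b * (b + 1) := by
      rcases le_or_gt 0 b with h | h
      · positivity
      · nlinarith
    exact_mod_cast this
  have hopp : ∀ a : ℤ, ((u : ℝ) - a * j) * ((v : ℝ) - a * w) ≤ 0 →
      hq (j + w) (u + v) a ≤ (u : ℝ) * (u + 1) / j + (v : ℝ) * (v + 1) / w := by
    intro a ha
    have e1 := hint ((u : ℤ) - a * j)
    have e2 := hint ((v : ℤ) - a * w)
    push_cast at e1 e2
    have : 0 ≤ ((u : ℝ) * (u + 1) / j + (v : ℝ) * (v + 1) / w) - hq (j + w) (u + v) a := by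
      rw [key a]
      apply div_nonneg _ (by positivity)
      have t1 : 0 ≤ ((u : ℝ) - a * j) * ((u : ℝ) - a * j + 1) * (w * (w - 1)) :=
        mul_nonneg e1 (mul_nonneg hw0.le (by linarith))
      have t2 : 0 ≤ ((v : ℝ) - a * w) * ((v : ℝ) - a * w + 1) * (j * (j - 1)) :=
        mul_nonneg e2 (mul_nonneg hj0.le (by linarith))
      have t3 : ((u : ℝ) - a * j) * ((v : ℝ) - a * w) * (j * w) ≤ 0 :=
        mul_nonpos_of_nonpos_of_nonneg ha (by positivity)
      nlinarith
    linarith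
  suffices h : ∃ a : ℤ, hq (j + w) (u + v) a ≤ (u : ℝ) * (u + 1) / j + (v : ℝ) * (v + 1) / w by
    obtain ⟨a, ha⟩ := h
    exact (H1_le_hq hk hn a).trans ha
  have du1 := Nat.div_mul_le_self u j
  have du2 : u < (u / j + 1) * j := by
    have := Nat.lt_div_mul_add (a := u) (b := j) (by omega)
    nlinarith
  have dv1 := Nat.div_mul_le_self v w
  have dv2 : v < (v / w + 1) * w := by
    have := Nat.lt_div_mul_add (a := v) (b := w) (by omega)
    nlinarith
  rcases lt_trichotomy (u / j) (v / w) with h | h | h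
  · refine ⟨((v / w : ℕ) : ℤ), hopp _ ?_⟩
    have h1 : (u / j + 1) * j ≤ (v / w) * j := Nat.mul_le_mul_right _ h
    have h2 : (u : ℝ) ≤ ((v / w : ℕ) : ℝ) * j := by
      have : u ≤ (v / w) * j := by omega
      exact_mod_cast this
    have h3 : ((v / w : ℕ) : ℝ) * w ≤ v := by exact_mod_cast dv1
    apply mul_nonpos_of_nonpos_of_nonneg
    · rw [Int.cast_natCast]; linarith
    · rw [Int.cast_natCast]; linarith
  · set a := u / j with ha
    rw [← h] at dv1 dv2
    refine ⟨((a : ℕ) : ℤ), ?_⟩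
    obtain ⟨α, hα⟩ : ∃ α, u = a * j + α := ⟨u - a * j, by omega⟩
    obtain ⟨β, hβ⟩ : ∃ β, v = a * w + β := ⟨v - a * w, by omega⟩
    have hα1 : α + 1 ≤ j := by
      have : (a + 1) * j = a * j + j := by ring
      omega
    have hβ1 : β + 1 ≤ w := by
      have : (a + 1) * w = a * w + w := by ring
      omega
    by_cases hα0 : α = 0
    · apply hopp
      rw [hα, hα0]; push_cast; simp
    by_cases hβ0 : β = 0
    · apply hopp
      rw [hβ, hβ0]; push_cast; simp
    have : 0 ≤ ((u : ℝ) * (u + 1) / j + (v : ℝ) * (v + 1) / w) - hq (j + w) (u + v) ((a : ℕ) : ℤ) := by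
      rw [key]
      apply div_nonneg _ (by positivity)
      have e1 : (u : ℝ) - (((a : ℕ) : ℤ) : ℝ) * j = α := by rw [hα]; push_cast; ring
      have e2 : (v : ℝ) - (((a : ℕ) : ℤ) : ℝ) * w = β := by rw [hβ]; push_cast; ring
      rw [e1, e2]
      have hαp : (1 : ℝ) ≤ α := by exact_mod_cast (by omega : 1 ≤ α)
      have hβp : (1 : ℝ) ≤ β := by exact_mod_cast (by omega : 1 ≤ β)
      have hαj : (α : ℝ) + 1 ≤ j := by exact_mod_cast hα1
      have hβw : (β : ℝ) + 1 ≤ w := by exact_mod_cast hβ1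
      generalize (α : ℝ) = A at *
      generalize (β : ℝ) = B at *
      generalize (j : ℝ) = J at *
      generalize (w : ℝ) = W at *
      have c1 : A * J ≤ (A + 1) * (J - 1) := by nlinarith
      have c2 : B * W ≤ (B + 1) * (W - 1) := by nlinarith
      have c3 : (A * J) * (B * W) ≤ ((A + 1) * (J - 1)) * ((B + 1) * (W - 1)) :=
        mul_le_mul c1 c2 (by positivity) (by nlinarith)
      set X := A * (A + 1) * (W * (W - 1)) with hX
      set Y := B * (B + 1) * (J * (J - 1)) with hY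
      have hXp : 0 < X := by
        have : 0 < W - 1 := by linarith
        positivity
      have hYp : 0 < Y := by
        have : 0 < J - 1 := by linarith
        positivity
      have hXY : (A * B * (J * W)) ^ 2 ≤ X * Y := by
        have e : X * Y = (A * B * (J * W)) * (((A + 1) * (J - 1)) * ((B + 1) * (W - 1))) := by
          rw [hX, hY]; ring
        have e' : (A * B * (J * W)) ^ 2 = (A * B * (J * W)) * ((A * J) * (B * W)) := by ring
        rw [e, e']
        exact mul_le_mul_of_nonneg_left c3 (by positivity)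
      have hfin : 2 * (A * B * (J * W)) ≤ X + Y := by
        have : (2 * (A * B * (J * W))) ^ 2 ≤ (X + Y) ^ 2 := by nlinarith [sq_nonneg (X - Y)]
        exact abs_le_of_sq_le_sq' this (by positivity) |>.2
      nlinarith
    linarith
  · refine ⟨((u / j : ℕ) : ℤ), hopp _ ?_⟩
    have h1 : (v / w + 1) * w ≤ (u / j) * w := Nat.mul_le_mul_right _ h
    have h2 : (v : ℝ) ≤ ((u / j : ℕ) : ℝ) * w := by
      have : v ≤ (u / j) * w := by omega
      exact_mod_cast this
    have h3 : ((u / j : ℕ) : ℝ) * j ≤ u := by exact_mod_cast du1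
    apply mul_nonpos_of_nonneg_of_nonpos
    · rw [Int.cast_natCast]; linarith
    · rw [Int.cast_natCast]; linarith

end Pool.Agent.Helper329.Sub
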