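import Mathlib
import Pool.Agent.Helper329.Sub.Num

set_option autoImplicit false

namespace Pool.Agent.Helper329.Sub

lemma F1_pos {k n : ℕ} (hk : 2 ≤ k) (hn : k ≤ n) : 0 < F1 k n := by
  obtain ⟨h1, h2, h3, h4, h5⟩ := m_facts hk hn
  unfold F1
  exact Nat.mul_pos h1 (Nat.choose_pos h4)

lemma F1_self {k : ℕ} (hk : 2 ≤ k) : F1 k k = 1 := by
  have h : (k + 1) / k = 1 := by
    rw [Nat.div_eq_iff (by omega)]; omega
  unfold F1
  rw [h, one_mul]
  exact Nat.choose_self _

lemma H1_self {k : ℕ} (hk : 2 ≤ k) : H1 k k = k + 2 := by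
  have h : (k + 1) / k = 1 := by
    rw [Nat.div_eq_iff (by omega)]; omega
  have hK : (k : ℝ) - 1 ≠ 0 := by
    have : (2 : ℝ) ≤ k := by exact_mod_cast hk
    intro h; linarith
  unfold H1 hq
  rw [h]
  push_cast
  field_simp
  ring

lemma step {k n : ℕ} (hk : 2 ≤ k) (hn : k ≤ n) :
    ∃ y : ℝ, 1 < y ∧ (F1 k (n + 1) : ℝ) * (y - 1) = F1 k n * y ∧ H1 k (n + 1) = H1 k n + 2 * y := by
  obtain ⟨h1, h2, h3, h4, h5⟩ := m_facts hk hn
  have hK : (0 : ℝ) < (k : ℝ) - 1 := by
    have : (2 : ℝ) ≤ k := by exact_mod_cast hk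
    linarith
  unfold H1 F1 hq
  set m := (n + 1) / k with hm
  by_cases hd : k * (m + 1) = n + 2
  · have hm' : (n + 1 + 1) / k = m + 1 := by
      rw [show n + 1 + 1 = n + 2 from rfl, ← hd, Nat.mul_div_cancel_left _ (by omega)]
    rw [hm']
    refine ⟨(m : ℝ) + 1, ?_, ?_, ?_⟩
    · have : (1 : ℝ) ≤ m := by exact_mod_cast h1
      linarith
    · have e : n + 1 - (m + 1) = n - m := by omega
      rw [e]
      push_cast
      ring
    · push_cast
      field_simp
      ring
  · have hm' : (n + 1 + 1) / k = m := by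
      have h6 : k * (m + 1) = k * m + k := by ring
      rw [Nat.div_eq_iff (by omega)]
      have h7 : m * k = k * m := by ring
      omega
    rw [hm']
    have hmn : (m : ℝ) ≤ n := by exact_mod_cast h5
    have h4' : (k : ℝ) - 1 ≤ n - m := by
      have : k ≤ n - m + 1 := by omega
      have : (k : ℝ) ≤ ((n - m : ℕ) : ℝ) + 1 := by exact_mod_cast this
      rw [Nat.cast_sub h5] at this
      linarith
    refine ⟨((n : ℝ) + 1 - m) / ((k : ℝ) - 1), ?_, ?_, ?_⟩
    · rw [lt_div_iff₀ hK]; linarith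
    · have e : n + 1 - m = (n - m) + 1 := by omega
      rw [e]
      have hc := Nat.choose_mul_succ_eq (n - m) (k - 1)
      have hc' : (((n - m).choose (k - 1) : ℕ) : ℝ) * ((n : ℝ) - m + 1) =
          (((n - m + 1).choose (k - 1) : ℕ) : ℝ) * ((n : ℝ) - m + 1 - ((k : ℝ) - 1)) := by
        have e3 : n - m + 1 - (k - 1) = n - m + 2 - k := by omega
        have e4 : ((n - m + 2 - k : ℕ) : ℝ) = (n : ℝ) - m + 1 - ((k : ℝ) - 1) := by
          rw [Nat.cast_sub (by omega)]
          push_cast [Nat.cast_sub h5]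
          ring
        rw [e3] at hc
        have hc2 : (((n - m).choose (k - 1) : ℕ) : ℝ) * (((n - m : ℕ) : ℝ) + 1) =
            (((n - m + 1).choose (k - 1) : ℕ) : ℝ) * ((n - m + 2 - k : ℕ) : ℝ) := by
          exact_mod_cast hc
        rw [e4, Nat.cast_sub h5] at hc2
        exact hc2
      have hy1 : ((n : ℝ) + 1 - m) / ((k : ℝ) - 1) - 1 = ((n : ℝ) - m + 1 - ((k : ℝ) - 1)) / ((k : ℝ) - 1) := by
        field_simp
        ring
      rw [hy1, mul_div_assoc', mul_div_assoc', div_left_inj' hK.ne']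
      push_cast
      linear_combination (-(m : ℝ)) * hc'
    · push_cast
      field_simp
      ring

/-- elementary convexity inequality -/
lemma log_ineq {y z : ℝ} (hy : 1 < y) (hz : 1 < z) :
    (z - y) / (z * (z - 1)) ≤ Real.log (y / (y - 1)) - Real.log (z / (z - 1)) := by
  have hy1 : 0 < y - 1 := by linarith
  have hz1 : 0 < z - 1 := by linarith
  have hy0 : 0 < y := by linarith
  have hz0 : 0 < z := by linarith
  rw [← Real.log_div (by positivity) (by positivity)]
  have h := Real.one_sub_inv_le_log_of_pos (x := y / (y - 1) / (z / (z - 1))) (by positivity)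
  refine le_trans ?_ h
  have e : 1 - (y / (y - 1) / (z / (z - 1)))⁻¹ - (z - y) / (z * (z - 1)) =
      (z - y) ^ 2 / (y * z * (z - 1)) := by
    field_simp
    ring
  have : 0 ≤ (z - y) ^ 2 / (y * z * (z - 1)) := by positivity
  linarith

/-- the quadratic defect -/
noncomputable def SS (j w u v : ℕ) : ℝ :=
  (u : ℝ) * (u + 1) / j + (v : ℝ) * (v + 1) / w - H1 (j + w) (u + v)

/-- the logarithm of the quotient -/
noncomputable def LR (j w u v : ℕ) : ℝ :=
  Real.log (F1 (j + w) (u + v)) - Real.log (u.choose j) - Real.log (v.choose w)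

lemma SS_nonneg {j w u v : ℕ} (hj : 1 ≤ j) (hw : 1 ≤ w) (hu : j ≤ u) (hv : w ≤ v) :
    0 ≤ SS j w u v := by
  have := H1_le j w u v hj hw hu hv
  unfold SS
  linarith

lemma SS_symm (j w u v : ℕ) : SS j w u v = SS w j v u := by
  unfold SS
  rw [Nat.add_comm j w, Nat.add_comm u v]
  ring

lemma LR_symm (j w u v : ℕ) : LR j w u v = LR w j v u := by
  unfold LR
  rw [Nat.add_comm j w, Nat.add_comm u v]
  ring

/-- one step in the first variable -/
lemma step_left {j w u v : ℕ} (hj : 1 ≤ j) (hw : 1 ≤ w) (hu : j ≤ u) (hv : w ≤ v)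
    (ih : ∀ z : ℝ, 1 < z → (u : ℝ) / j ≤ z → (v : ℝ) / w ≤ z →
      SS j w u v / (z * (z - 1)) ≤ 2 * LR j w u v)
    (hle : (v : ℝ) / w ≤ ((u + 1 : ℕ) : ℝ) / j) :
    SS j w (u + 1) v / ((((u + 1 : ℕ) : ℝ) / j) * (((u + 1 : ℕ) : ℝ) / j - 1)) ≤
      2 * LR j w (u + 1) v := by
  have hj0 : (0 : ℝ) < j := by exact_mod_cast hj
  have hw0 : (0 : ℝ) < w := by exact_mod_cast hw
  set z : ℝ := ((u + 1 : ℕ) : ℝ) / j with hzdef
  have hz : 1 < z := by
    rw [hzdef, lt_div_iff₀ hj0, one_mul]
    exact_mod_cast Nat.lt_succ_of_le hu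
  have huz : (u : ℝ) / j ≤ z := by
    rw [hzdef]
    apply div_le_div_of_nonneg_right _ hj0.le
    push_cast; linarith
  have h0 := ih z hz huz hle
  obtain ⟨y, hy, hF, hH⟩ := step (k := j + w) (n := u + v) (by omega) (by omega)
  have hFp : (0 : ℝ) < F1 (j + w) (u + v) := by
    exact_mod_cast F1_pos (k := j + w) (n := u + v) (by omega) (by omega)
  have hy1 : 0 < y - 1 := by linarith
  have hy0 : 0 < y := by linarith
  have e1 : (F1 (j + w) (u + v + 1) : ℝ) = F1 (j + w) (u + v) * (y / (y - 1)) := by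
    field_simp
    linear_combination hF
  have eL : Real.log (F1 (j + w) (u + v + 1)) = Real.log (F1 (j + w) (u + v)) + Real.log (y / (y - 1)) := by
    rw [e1, Real.log_mul hFp.ne' (by positivity)]
  have hCp : (0 : ℝ) < (u.choose j : ℕ) := by exact_mod_cast Nat.choose_pos hu
  have hc := Nat.choose_mul_succ_eq u j
  have hc' : ((u.choose j : ℕ) : ℝ) * ((u : ℝ) + 1) = (((u + 1).choose j : ℕ) : ℝ) * ((u : ℝ) + 1 - j) := by
    have : ((u + 1 - j : ℕ) : ℝ) = (u : ℝ) + 1 - j := by
      rw [Nat.cast_sub (by omega)]; push_cast; ring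
    rw [← this]
    exact_mod_cast hc
  have hzz : z / (z - 1) = ((u : ℝ) + 1) / ((u : ℝ) + 1 - j) := by
    have h9 : (0 : ℝ) < (u : ℝ) + 1 - j := by
      have : (j : ℝ) ≤ u := by exact_mod_cast hu
      linarith
    rw [hzdef]
    push_cast
    field_simp
  have e2 : (((u + 1).choose j : ℕ) : ℝ) = ((u.choose j : ℕ) : ℝ) * (z / (z - 1)) := by
    have h9 : (0 : ℝ) < (u : ℝ) + 1 - j := by
      have : (j : ℝ) ≤ u := by exact_mod_cast hu
      linarith
    rw [hzz, ← mul_div_assoc, hc']
    field_simp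
  have hz1 : 0 < z - 1 := by linarith
  have hz0 : 0 < z := by linarith
  have eC : Real.log ((u + 1).choose j : ℕ) = Real.log (u.choose j : ℕ) + Real.log (z / (z - 1)) := by
    rw [e2, Real.log_mul hCp.ne' (by positivity)]
  have eLR : LR j w (u + 1) v = LR j w u v + (Real.log (y / (y - 1)) - Real.log (z / (z - 1))) := by
    unfold LR
    rw [show u + 1 + v = u + v + 1 by ring, eL, eC]
    ring
  have eSS : SS j w (u + 1) v = SS j w u v + 2 * (z - y) := by
    unfold SS
    rw [show u + 1 + v = u + v + 1 by ring, hH, hzdef]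
    push_cast
    field_simp
    ring
  have hl := log_ineq hy hz
  rw [eLR, eSS]
  have : (SS j w u v + 2 * (z - y)) / (z * (z - 1)) =
      SS j w u v / (z * (z - 1)) + 2 * ((z - y) / (z * (z - 1))) := by
    ring
  rw [this]
  linarith

lemma mono_z {S L z z' : ℝ} (hS : 0 ≤ S) (hz : 1 < z) (hzz : z ≤ z') (h : S / (z * (z - 1)) ≤ L) :
    S / (z' * (z' - 1)) ≤ L := by
  refine le_trans ?_ h
  apply div_le_div_of_nonneg_left hS
  · have : 0 < z - 1 := by linarith
    have : 0 < z := by linarith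
    positivity
  · apply mul_le_mul hzz (by linarith) (by linarith) (by linarith)

theorem main_ineq (t : ℕ) : ∀ j w u v : ℕ, 1 ≤ j → 1 ≤ w → j ≤ u → w ≤ v →
    (u - j) + (v - w) = t → ∀ z : ℝ, 1 < z → (u : ℝ) / j ≤ z → (v : ℝ) / w ≤ z →
      SS j w u v / (z * (z - 1)) ≤ 2 * LR j w u v := by
  induction t with
  | zero =>
    intro j w u v hj hw hu hv ht z hz _ _
    have e1 : u = j := by omega
    have e2 : v = w := by omega
    subst e1; subst e2
    have h1 : SS u v u v = 0 := by
      unfold SS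
      rw [H1_self (by omega)]
      have : (0 : ℝ) < u := by exact_mod_cast hj
      have : (0 : ℝ) < v := by exact_mod_cast hw
      push_cast
      field_simp
      ring
    have h2 : LR u v u v = 0 := by
      unfold LR
      rw [F1_self (by omega), Nat.choose_self, Nat.choose_self]
      simp
    rw [h1, h2]; simp
  | succ t ih =>
    intro j w u v hj hw hu hv ht z hz hzu hzv
    have hj0 : (0 : ℝ) < j := by exact_mod_cast hj
    have hw0 : (0 : ℝ) < w := by exact_mod_cast hw
    rcases le_total ((v : ℝ) / w) ((u : ℝ) / j) with h | h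
    · have huj : j < u := by
        by_contra hcon
        have e : u = j := by omega
        rw [e, div_self hj0.ne', div_le_iff₀ hw0, one_mul] at h
        have : v ≤ w := by exact_mod_cast h
        omega
      obtain ⟨u', rfl⟩ : ∃ u', u = u' + 1 := ⟨u - 1, by omega⟩
      have hs := step_left hj hw (by omega) hv (ih j w u' v hj hw (by omega) hv (by omega)) h
      refine mono_z (SS_nonneg hj hw hu hv) ?_ hzu hs
      rw [lt_div_iff₀ hj0, one_mul]
      exact_mod_cast huj
    · have hwv : w < v := by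
        by_contra hcon
        have e : v = w := by omega
        rw [e, div_self hw0.ne', div_le_iff₀ hj0, one_mul] at h
        have : u ≤ j := by exact_mod_cast h
        omega
      obtain ⟨v', rfl⟩ : ∃ v', v = v' + 1 := ⟨v - 1, by omega⟩
      have hs := step_left hw hj (by omega) hu (ih w j v' u hw hj (by omega) hu (by omega)) h
      rw [SS_symm, LR_symm]
      refine mono_z (SS_nonneg hw hj hv hu) ?_ hzv hs
      rw [lt_div_iff₀ hw0, one_mul]
      exact_mod_cast hwv

/-- **The numerical inequality.** -/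
theorem choose_mul_choose_le {j w u v : ℕ} (hj : 1 ≤ j) (hw : 1 ≤ w) (hu : j ≤ u) (hv : w ≤ v) :
    u.choose j * v.choose w ≤ F1 (j + w) (u + v) := by
  have hj0 : (0 : ℝ) < j := by exact_mod_cast hj
  have hw0 : (0 : ℝ) < w := by exact_mod_cast hw
  have h := main_ineq _ j w u v hj hw hu hv rfl (max 2 (max ((u : ℝ) / j) ((v : ℝ) / w)))
    (lt_of_lt_of_le (by norm_num) (le_max_left _ _))
    (le_trans (le_max_left _ _) (le_max_right _ _)) (le_trans (le_max_right _ _) (le_max_right _ _))
  set z := max 2 (max ((u : ℝ) / j) ((v : ℝ) / w))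
  have hz : 2 ≤ z := le_max_left _ _
  have h0 : 0 ≤ SS j w u v / (z * (z - 1)) := by
    apply div_nonneg (SS_nonneg hj hw hu hv)
    have : 0 < z - 1 := by linarith
    positivity
  have h1 : 0 ≤ LR j w u v := by linarith
  unfold LR at h1
  have hc1 : (0 : ℝ) < (u.choose j : ℕ) := by exact_mod_cast Nat.choose_pos hu
  have hc2 : (0 : ℝ) < (v.choose w : ℕ) := by exact_mod_cast Nat.choose_pos hv
  have hFp : (0 : ℝ) < F1 (j + w) (u + v) := by
    exact_mod_cast F1_pos (k := j + w) (n := u + v) (by omega) (by omega)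
  have h2 : Real.log ((u.choose j : ℕ) * (v.choose w : ℕ)) ≤ Real.log (F1 (j + w) (u + v)) := by
    rw [Real.log_mul hc1.ne' hc2.ne']
    linarith
  have h3 := (Real.log_le_log_iff (by positivity) hFp).1 h2
  exact_mod_cast h3

end Pool.Agent.Helper329.Sub
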