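import Mathlib
import Pool.Agent.Helper329.Sub.Defs

set_option autoImplicit false

open Finset

namespace Pool.Agent.Helper329.Sub

variable {n : ℕ}

/-- indicator vector of a set -/
def ind (A : Finset (Fin n)) : Fin n → ℝ := fun i => if i ∈ A then 1 else 0

lemma ind_injective : Function.Injective (ind : Finset (Fin n) → Fin n → ℝ) := by
  intro A B h
  ext i
  have := congrFun h i
  unfold ind at this
  by_cases hA : i ∈ A <;> by_cases hB : i ∈ B <;> simp [hA, hB] at this ⊢

lemma isVertex_ind (A : Finset (Fin n)) : IsVertex (ind A) := by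
  intro i
  unfold ind
  by_cases h : i ∈ A <;> simp [h]

lemma weight_ind (A : Finset (Fin n)) : weight (ind A) = A.card := by
  unfold weight
  have : {i | ind A i = 1} = (A : Set (Fin n)) := by
    ext i
    unfold ind
    by_cases h : i ∈ A <;> simp [h]
  rw [this, Set.ncard_coe_finset]

lemma exists_ind {v : Fin n → ℝ} (hv : IsVertex v) : ∃ A : Finset (Fin n), v = ind A := by
  classical
  refine ⟨Finset.univ.filter (fun i => v i = 1), ?_⟩
  funext i
  unfold ind
  rcases hv i with h | h <;> simp [h]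

lemma sum_ind_mul (A : Finset (Fin n)) (x : Fin n → ℝ) : ∑ i, ind A i * x i = ∑ i ∈ A, x i := by
  unfold ind
  simp [Finset.sum_ite_mem]

/-- a unit-free set is orthogonal to a vector with no zero coordinate -/
lemma exists_orth {S : Set (Fin n → ℝ)} (hS : UnitFree S) :
    ∃ x : Fin n → ℝ, (∀ i, x i ≠ 0) ∧ ∀ v ∈ S, ∑ i, v i * x i = 0 := by
  let W : Submodule ℝ (Fin n → ℝ) :=
    { carrier := {x | ∀ v ∈ S, ∑ i, v i * x i = 0}
      add_mem' := by
        intro a b ha hb v hv
        simp only [Pi.add_apply, mul_add, Finset.sum_add_distrib, ha v hv, hb v hv, add_zero]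
      zero_mem' := by
        intro v _
        simp
      smul_mem' := by
        intro c a ha v hv
        have : ∑ i, v i * (c • a) i = c * ∑ i, v i * a i := by
          rw [Finset.mul_sum]
          apply Finset.sum_congr rfl
          intro i _
          simp only [Pi.smul_apply, smul_eq_mul]
          ring
        rw [this, ha v hv, mul_zero] }
  let p : Fin n → Subspace ℝ W := fun i => LinearMap.ker ((LinearMap.proj i).comp W.subtype)
  have hp : ∀ i, p i ≠ ⊤ := by
    intro i htop
    obtain ⟨f, hf1, hf2⟩ := Submodule.exists_le_ker_of_notMem (hS i)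
    let x : Fin n → ℝ := fun j => f (Pi.single j 1)
    have hx : x ∈ W := by
      intro v hv
      have h1 : f v = 0 := by
        have := hf2 (Submodule.subset_span hv)
        simpa using this
      have h2 : f v = ∑ j, v j * x j := by
        rw [LinearMap.pi_apply_eq_sum_univ f v]
        apply Finset.sum_congr rfl
        intro j _
        rw [smul_eq_mul]
        congr 2
        funext l
        rw [Pi.single_apply]
        by_cases h : j = l
        · simp [h]
        · simp [h, Ne.symm h]
      rw [← h2, h1]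
    have hmem : (⟨x, hx⟩ : W) ∈ p i := by rw [htop]; trivial
    have : x i = 0 := by simpa [p] using hmem
    exact hf1 this
  by_contra hcon
  push Not at hcon
  have hcov : ⋃ i, (p i : Set W) = Set.univ := by
    rw [Set.eq_univ_iff_forall]
    intro y
    by_contra hy
    rw [Set.mem_iUnion] at hy
    push Not at hy
    obtain ⟨v, hv, hne⟩ := hcon y.1 (by
      intro i h0
      apply hy i
      simp only [p, SetLike.mem_coe, LinearMap.mem_ker, LinearMap.comp_apply]
      exact h0)
    exact hne (y.2 v hv)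
  obtain ⟨i, hi⟩ := Subspace.exists_eq_top_of_iUnion_eq_univ hcov
  exact hp i hi

/-- a set orthogonal to a vector with no zero coordinate is unit-free -/
lemma unitFree_of_orth {S : Set (Fin n → ℝ)} {x : Fin n → ℝ} (hx : ∀ i, x i ≠ 0)
    (hS : ∀ v ∈ S, ∑ i, v i * x i = 0) : UnitFree S := by
  intro i hi
  have key : ∀ v ∈ Submodule.span ℝ S, ∑ i, v i * x i = 0 := by
    intro v hv
    induction hv using Submodule.span_induction with
    | mem v hv => exact hS v hv
    | zero => simp
    | add a b _ _ ha hb => simp only [Pi.add_apply, add_mul, Finset.sum_add_distrib, ha, hb, add_zero]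
    | smul c a _ ha =>
      simp only [Pi.smul_apply, smul_eq_mul, mul_assoc, ← Finset.mul_sum, ha, mul_zero]
  have h := key _ hi
  simp only [Pi.single_apply, ite_mul, one_mul, zero_mul, Finset.sum_ite_eq', Finset.mem_univ,
    if_true] at h
  exact hx i h

/-- translate a set of vertices into a family of sets -/
lemma exists_family {S : Set (Fin n → ℝ)} (hS : ∀ v ∈ S, IsVertex v) :
    ∃ F : Finset (Finset (Fin n)), S = ind '' (F : Set (Finset (Fin n))) ∧ S.ncard = F.card := by
  classical
  refine ⟨Finset.univ.filter (fun A => ind A ∈ S), ?_, ?_⟩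
  · ext v
    constructor
    · intro hv
      obtain ⟨A, rfl⟩ := exists_ind (hS v hv)
      exact ⟨A, by simpa using hv, rfl⟩
    · rintro ⟨A, hA, rfl⟩
      simpa using hA
  · have : S = ind '' ((Finset.univ.filter (fun A => ind A ∈ S) : Finset (Finset (Fin n))) :
        Set (Finset (Fin n))) := by
      ext v
      constructor
      · intro hv
        obtain ⟨A, rfl⟩ := exists_ind (hS v hv)
        exact ⟨A, by simpa using hv, rfl⟩
      · rintro ⟨A, hA, rfl⟩
        simpa using hA
    conv_lhs => rw [this]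
    rw [Set.ncard_image_of_injective _ ind_injective, Set.ncard_coe_finset]

/-- the sets with `a` elements in `P` and `b` elements outside `P` -/
def prodFam (P : Finset (Fin n)) (a b : ℕ) : Finset (Finset (Fin n)) :=
  (P.powersetCard a ×ˢ Pᶜ.powersetCard b).image (fun BC => BC.1 ∪ BC.2)

lemma card_prodFam (P : Finset (Fin n)) (a b : ℕ) :
    (prodFam P a b).card = P.card.choose a * Pᶜ.card.choose b := by
  unfold prodFam
  rw [Finset.card_image_of_injOn, Finset.card_product, Finset.card_powersetCard,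
    Finset.card_powersetCard]
  rintro ⟨B, C⟩ h ⟨B', C'⟩ h' he
  simp only [Finset.coe_product, Set.mem_prod, Finset.mem_coe, Finset.mem_powersetCard] at h h' he
  have hB : ∀ i, i ∈ B → i ∈ P := fun i hi => h.1.1 hi
  have hC : ∀ i, i ∈ C → i ∉ P := fun i hi => Finset.mem_compl.1 (h.2.1 hi)
  have hB' : ∀ i, i ∈ B' → i ∈ P := fun i hi => h'.1.1 hi
  have hC' : ∀ i, i ∈ C' → i ∉ P := fun i hi => Finset.mem_compl.1 (h'.2.1 hi)
  have hiff : ∀ i, (i ∈ B ∨ i ∈ C) ↔ (i ∈ B' ∨ i ∈ C') := by
    intro i
    rw [← Finset.mem_union, ← Finset.mem_union, he]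
  have e1 : B = B' := by
    ext i
    constructor
    · intro hi
      rcases (hiff i).1 (Or.inl hi) with h0 | h0
      · exact h0
      · exact absurd (hB i hi) (hC' i h0)
    · intro hi
      rcases (hiff i).2 (Or.inl hi) with h0 | h0
      · exact h0
      · exact absurd (hB' i hi) (hC i h0)
  have e2 : C = C' := by
    ext i
    constructor
    · intro hi
      rcases (hiff i).1 (Or.inr hi) with h0 | h0
      · exact absurd (hB' i h0) (hC i hi)
      · exact h0
    · intro hi
      rcases (hiff i).2 (Or.inr hi) with h0 | h0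
      · exact absurd (hB i h0) (hC' i hi)
      · exact h0
  rw [e1, e2]

lemma mem_prodFam {P : Finset (Fin n)} {a b : ℕ} {A : Finset (Fin n)} (hA : A ∈ prodFam P a b) :
    ∃ B C, B ⊆ P ∧ C ⊆ Pᶜ ∧ B.card = a ∧ C.card = b ∧ Disjoint B C ∧ A = B ∪ C := by
  unfold prodFam at hA
  rw [Finset.mem_image] at hA
  obtain ⟨⟨B, C⟩, h, rfl⟩ := hA
  simp only [Finset.mem_product, Finset.mem_powersetCard] at h
  refine ⟨B, C, h.1.1, h.2.1, h.1.2, h.2.2, ?_, rfl⟩
  exact Finset.disjoint_of_subset_left h.1.1 (Finset.disjoint_of_subset_right h.2.1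
    disjoint_compl_right)

/-- the two-valued vector -/
def twoVal (P : Finset (Fin n)) (a b : ℝ) : Fin n → ℝ := fun i => if i ∈ P then a else -b

lemma sum_twoVal {P : Finset (Fin n)} (a b : ℝ) {B C : Finset (Fin n)} (hB : B ⊆ P)
    (hC : C ⊆ Pᶜ) (hd : Disjoint B C) :
    ∑ i ∈ B ∪ C, twoVal P a b i = B.card * a - C.card * b := by
  rw [Finset.sum_union hd]
  have e1 : ∑ i ∈ B, twoVal P a b i = B.card * a := by
    rw [Finset.sum_congr rfl (g := fun _ => a)]
    · rw [Finset.sum_const, nsmul_eq_mul]
    · intro i hi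
      simp [twoVal, hB hi]
  have e2 : ∑ i ∈ C, twoVal P a b i = - (C.card * b) := by
    rw [Finset.sum_congr rfl (g := fun _ => -b)]
    · rw [Finset.sum_const, nsmul_eq_mul]; ring
    · intro i hi
      have : i ∉ P := Finset.mem_compl.1 (hC hi)
      simp [twoVal, this]
  rw [e1, e2]
  ring

lemma product_mem_sizes {n₁ n₂ k₁ k₂ : ℕ} (hn : n₁ + n₂ = n) (h1 : 1 ≤ k₁) (h2 : 1 ≤ k₂) :
    n₁.choose k₁ * n₂.choose k₂ ∈ sizes n (k₁ + k₂) := by
  classical
  obtain ⟨P, hP⟩ : ∃ P : Finset (Fin n), P.card = n₁ := by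
    have : n₁ ≤ (Finset.univ : Finset (Fin n)).card := by simp; omega
    obtain ⟨P, _, hP⟩ := Finset.exists_subset_card_eq this
    exact ⟨P, hP⟩
  have hPc : Pᶜ.card = n₂ := by
    rw [Finset.card_compl, Fintype.card_fin, hP]; omega
  refine ⟨ind '' (prodFam P k₁ k₂ : Set (Finset (Fin n))), ?_, ?_, ?_⟩
  · rintro v ⟨A, hA, rfl⟩
    refine ⟨isVertex_ind A, ?_⟩
    obtain ⟨B, C, _, _, hBc, hCc, hd, rfl⟩ := mem_prodFam (Finset.mem_coe.1 hA)
    rw [weight_ind, Finset.card_union_of_disjoint hd, hBc, hCc]
  · apply unitFree_of_orth (x := twoVal P (k₂ : ℝ) (k₁ : ℝ))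
    · intro i
      unfold twoVal
      have hk1 : (k₁ : ℝ) ≠ 0 := by exact_mod_cast (by omega : k₁ ≠ 0)
      have hk2 : (k₂ : ℝ) ≠ 0 := by exact_mod_cast (by omega : k₂ ≠ 0)
      by_cases h : i ∈ P <;> simp [h, hk1, hk2]
    · rintro v ⟨A, hA, rfl⟩
      obtain ⟨B, C, hB, hC, hBc, hCc, hd, rfl⟩ := mem_prodFam (Finset.mem_coe.1 hA)
      rw [sum_ind_mul, sum_twoVal _ _ hB hC hd, hBc, hCc]
      ring
  · rw [Set.ncard_image_of_injective _ ind_injective, Set.ncard_coe_finset, card_prodFam, hP, hPc]

end Pool.Agent.Helper329.Sub
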